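import Pool.Agent.W711.HT.Geo

/-!
# HT-CHN: a chain is a solution of the gluing equations
-/

set_option autoImplicit false

namespace Pool.Agent.W253.HT

open Pool.Agent.W711.HT
open Filter Finset Topology Metric
open scoped Real ComplexConjugate

/-! ### lists -/

theorem sm_le {l L : List (ℕ × ℂ)} (h : l <:+ L) : sm l ≤ sm L := by
  induction L with
  | nil => rw [List.suffix_nil] at h; rw [h]
  | cons x L ih =>
    rcases List.suffix_cons_iff.1 h with h | h
    · rw [h]
    · exact (ih h).trans (Nat.le_add_left _ _)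

theorem qloc (dl : ℂ → ℂ → ℂ) {L : List (ℕ × ℂ)} {p : ℕ × ℂ} {l : List (ℕ × ℂ)}
    (h : (p :: l) <:+ L) {j : ℕ} (h1 : sm l < j + 1) (h2 : j + 1 ≤ p.1 + sm l) :
    Qc dl L j = Uf (bl l) p.2 (tl dl l p.2) (j + 1 - sm l) := by
  induction L with
  | nil => exact absurd (List.suffix_nil.1 h) (List.cons_ne_nil _ _)
  | cons x L ih =>
    rcases List.suffix_cons_iff.1 h with h | h
    · rw [← h]
      show (if j + 1 ≤ sm l then Qc dl l j else Uf (bl l) p.2 (tl dl l p.2) (j + 1 - sm l)) = _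
      rw [if_neg (by omega)]
    · have h3 : sm (p :: l) ≤ sm L := sm_le h
      have h4 : sm (p :: l) = p.1 + sm l := rfl
      show (if j + 1 ≤ sm L then Qc dl L j else _) = _
      rw [if_pos (by omega)]
      exact ih h

theorem ploc (dl : ℂ → ℂ → ℂ) {L : List (ℕ × ℂ)} {p : ℕ × ℂ} {l : List (ℕ × ℂ)}
    (h : (p :: l) <:+ L) {j : ℕ} (h1 : sm l ≤ j + 1) (h2 : j + 1 < p.1 + sm l) :
    Pc dl L j = Uf (bl l) p.2 (tl dl l p.2) (j + 1 - sm l) := by
  induction L with
  | nil => exact absurd (List.suffix_nil.1 h) (List.cons_ne_nil _ _)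
  | cons x L ih =>
    rcases List.suffix_cons_iff.1 h with h | h
    · rw [← h]
      show (if j + 1 < sm l then Pc dl l j else Uf (bl l) p.2 (tl dl l p.2) (j + 1 - sm l)) = _
      rw [if_neg (by omega)]
    · have h3 : sm (p :: l) ≤ sm L := sm_le h
      have h4 : sm (p :: l) = p.1 + sm l := rfl
      show (if j + 1 < sm L then Pc dl L j else _) = _
      rw [if_pos (by omega)]
      exact ih h

theorem exists_reg (L : List (ℕ × ℂ)) (i : ℕ) (h1 : 1 ≤ i) (h2 : i ≤ sm L) :
    ∃ p l, (p :: l) <:+ L ∧ sm l < i ∧ i ≤ p.1 + sm l := by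
  induction L with
  | nil =>
    have : sm [] = 0 := rfl
    omega
  | cons x L ih =>
    by_cases h : i ≤ sm L
    · obtain ⟨p, l, h3, h4, h5⟩ := ih h
      exact ⟨p, l, h3.trans (List.suffix_cons _ _), h4, h5⟩
    · exact ⟨x, L, List.suffix_refl _, by omega, h2⟩

theorem isH_iff (L : List (ℕ × ℂ)) (j : ℕ) :
    isH L j ↔ ∃ q l, (q :: l) <:+ L ∧ l ≠ [] ∧ j + 1 = sm l := by
  induction L with
  | nil =>
    constructor
    · exact fun h => h.elim
    · rintro ⟨q, l, h, -⟩
      exact absurd (List.suffix_nil.1 h) (List.cons_ne_nil _ _)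
  | cons x L ih =>
    show (isH L j ∨ (L ≠ [] ∧ j + 1 = sm L)) ↔ _
    rw [ih]
    constructor
    · rintro (⟨q, l, h1, h2, h3⟩ | ⟨h1, h2⟩)
      · exact ⟨q, l, h1.trans (List.suffix_cons _ _), h2, h3⟩
      · exact ⟨x, L, List.suffix_refl _, h1, h2⟩
    · rintro ⟨q, l, h1, h2, h3⟩
      rcases List.suffix_cons_iff.1 h1 with h | h
      · right
        rw [List.cons.injEq] at h
        rw [← h.2]
        exact ⟨h2, h3⟩
      · exact Or.inl ⟨q, l, h, h2, h3⟩

theorem chn_suffix {dl : ℂ → ℂ → ℂ} {L : List (ℕ × ℂ)} {t : ℂ} (hL : Chn dl L t)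
    {p : ℕ × ℂ} {l : List (ℕ × ℂ)} (h : (p :: l) <:+ L) :
    p :: l = L ∨ ∃ q, (q :: p :: l) <:+ L ∧ ∃ t2, Chn dl (q :: p :: l) t2 := by
  induction L generalizing t with
  | nil => exact absurd (List.suffix_nil.1 h) (List.cons_ne_nil _ _)
  | cons x L ih =>
    rcases List.suffix_cons_iff.1 h with h | h
    · exact Or.inl h
    · right
      have hL2 : Chn dl L (tr dl L x.2) := hL.2.2.2.2.2
      rcases ih hL2 h with h1 | ⟨q, h1, t2, h2⟩
      · refine ⟨x, ?_, t, ?_⟩
        · rw [h1]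
        · rw [h1]; exact hL
      · exact ⟨q, h1.trans (List.suffix_cons _ _), t2, h2⟩

/-! ### trigonometry -/

theorem sin_ne {r : ℂ} (h : r.im ≠ 0) : Complex.sin r ≠ 0 := by
  intro h1
  obtain ⟨k, hk⟩ := Complex.sin_eq_zero_iff.1 h1
  apply h
  rw [hk]
  simp

theorem sin_rec {r t : ℂ} (hr : Complex.sin r ≠ 0) (k : ℕ) :
    Complex.sin (k * r + t) / Complex.sin r *
      (Complex.sin (((k + 2 : ℕ) : ℂ) * r + t) / Complex.sin r) =
      (Complex.sin (((k + 1 : ℕ) : ℂ) * r + t) / Complex.sin r) ^ 2 - 1 := by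
  have e1 : (k : ℂ) * r + t = (((k + 1 : ℕ) : ℂ) * r + t) - r := by
    push_cast
    ring
  have e2 : ((k + 2 : ℕ) : ℂ) * r + t = (((k + 1 : ℕ) : ℂ) * r + t) + r := by
    push_cast
    ring
  rw [e1, e2]
  generalize ((k + 1 : ℕ) : ℂ) * r + t = α
  rw [Complex.sin_sub, Complex.sin_add]
  have h1 := Complex.sin_sq_add_cos_sq α
  have h2 := Complex.sin_sq_add_cos_sq r
  have h3 : Complex.cos α ^ 2 = 1 - Complex.sin α ^ 2 := by linear_combination h1
  have h4 : Complex.cos r ^ 2 = 1 - Complex.sin r ^ 2 := by linear_combination h2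
  field_simp
  linear_combination (Complex.sin α ^ 2) * h4 - (Complex.sin r ^ 2) * h3

theorem quad_use (hQ : S_QUAD) {a : ℕ} {r t t' : ℂ} (ha : 10 ≤ a) (hr : r ≠ 0)
    (heq : a * r + t + t' = π) (ht : t = 0 ∨ ‖t - Complex.I * r‖ ≤ ‖r‖ / 10)
    (ht' : t' = 0 ∨ ‖t' - Complex.I * r‖ ≤ ‖r‖ / 10) (hne : t ≠ 0 ∨ t' ≠ 0) {k : ℕ}
    (hk1 : 1 ≤ k) (hk2 : k < a) (h1 : t = 0 → k ≠ 1) (h2 : t' = 0 → k + 1 ≠ a) :
    0 < (Complex.sin (k * r + t) / Complex.sin r).re ∧
      0 < (Complex.sin (k * r + t) / Complex.sin r).im := by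
  have hI : Complex.I ≠ 0 := Complex.I_ne_zero
  have hrn : 0 < ‖r‖ := norm_pos_iff.2 hr
  have aux : ∀ s : ℂ, (s = 0 ∨ ‖s - Complex.I * r‖ ≤ ‖r‖ / 10) →
      (s / (Complex.I * r) = 0 ∨ ‖s / (Complex.I * r) - 1‖ ≤ 1 / 10) := by
    intro s hs
    rcases hs with hs | hs
    · left
      rw [hs, zero_div]
    · right
      have e : s / (Complex.I * r) - 1 = (s - Complex.I * r) / (Complex.I * r) := by
        field_simp
      rw [e, norm_div, norm_mul, Complex.norm_I, one_mul, div_le_iff₀ hrn]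
      linarith
  have aux2 : ∀ s : ℂ, s / (Complex.I * r) = 0 → s = 0 := by
    intro s hs
    rcases div_eq_zero_iff.1 hs with hs | hs
    · exact hs
    · exact absurd hs (mul_ne_zero hI hr)
  have hπ : (π : ℂ) ≠ 0 := by exact_mod_cast Real.pi_ne_zero
  have e1 : (a : ℂ) + Complex.I * (t / (Complex.I * r) + t' / (Complex.I * r)) = π / r := by
    rw [← heq]
    field_simp
    ring
  have e2 : (π : ℂ) / (π / r) = r := by
    field_simp
  have e3 : r * (k + Complex.I * (t / (Complex.I * r))) = k * r + t := by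
    field_simp
  have h := hQ a (t / (Complex.I * r)) (t' / (Complex.I * r)) ha (aux t ht) (aux t' ht')
    (by
      rcases hne with h | h
      · exact Or.inl fun h' => h (aux2 _ h')
      · exact Or.inr fun h' => h (aux2 _ h')) k hk1 hk2 (fun h' => h1 (aux2 _ h'))
    (fun h' => h2 (aux2 _ h'))
  rw [e1, e2, e3] at h
  exact h

theorem cos_re (z : ℂ) : (Complex.cos z).re = Real.cos z.re * Real.cosh z.im := by
  rw [Complex.cos_eq]
  simp [Complex.cos_ofReal_re, Complex.sin_ofReal_re, Complex.cosh_ofReal_re,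
    Complex.sinh_ofReal_re]

theorem cos_im (z : ℂ) : (Complex.cos z).im = -(Real.sin z.re * Real.sinh z.im) := by
  rw [Complex.cos_eq]
  simp [Complex.cos_ofReal_re, Complex.sin_ofReal_re, Complex.cosh_ofReal_re,
    Complex.sinh_ofReal_re]

theorem cos_half {ψ : ℂ} (h : ‖ψ‖ ≤ 1 / 10) :
    |(Complex.cos (ψ / 2)).im| < (Complex.cos (ψ / 2)).re := by
  have hx : |(ψ / 2).re| ≤ 1 / 20 := by
    refine (Complex.abs_re_le_norm _).trans ?_
    rw [norm_div]
    simp only [Complex.norm_ofNat]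
    linarith
  rw [cos_re, cos_im, abs_neg, abs_mul]
  generalize (ψ / 2).re = x at hx
  generalize (ψ / 2).im = y
  have h1 : |Real.sin x| ≤ |x| := Real.abs_sin_le_abs
  have h2 : 1 - x ^ 2 / 2 ≤ Real.cos x := Real.one_sub_sq_div_two_le_cos
  have h3 : x ^ 2 ≤ (1 / 20) ^ 2 := by
    rw [← sq_abs]
    exact pow_le_pow_left₀ (abs_nonneg _) hx 2
  have h4 : |Real.sinh y| < Real.cosh y := by
    rw [← Real.cosh_abs, Real.abs_sinh]
    exact Real.sinh_lt_cosh _
  have h5 : |Real.sin x| < Real.cos x := by linarith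
  exact mul_lt_mul'' h5 h4 (abs_nonneg _) (abs_nonneg _)

theorem cos_im_pos {ψ : ℂ} (h : ‖ψ‖ ≤ 1 / 10) (h1 : ψ.re < 0) (h2 : 0 < ψ.im) :
    0 < (Complex.cos (ψ / 2)).im := by
  have hx : |(ψ / 2).re| ≤ 1 / 20 := by
    refine (Complex.abs_re_le_norm _).trans ?_
    rw [norm_div]
    simp only [Complex.norm_ofNat]
    linarith
  have e1 : (ψ / 2).re = ψ.re / 2 := by simp
  have e2 : (ψ / 2).im = ψ.im / 2 := by simp
  rw [cos_im]
  have h3 : Real.sin (ψ / 2).re < 0 := by
    apply Real.sin_neg_of_neg_of_neg_pi_lt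
    · rw [e1]; linarith
    · have := (abs_le.1 hx).1
      have := Real.pi_gt_three
      linarith
  have h4 : 0 < Real.sinh (ψ / 2).im := by
    rw [Real.sinh_pos_iff, e2]
    linarith
  nlinarith [mul_pos (neg_pos.2 h3) h4]

theorem cos_im_neg {ψ : ℂ} (h : ‖ψ‖ ≤ 1 / 10) (h1 : 0 < ψ.re) (h2 : 0 < ψ.im) :
    (Complex.cos (ψ / 2)).im < 0 := by
  have hx : |(ψ / 2).re| ≤ 1 / 20 := by
    refine (Complex.abs_re_le_norm _).trans ?_
    rw [norm_div]
    simp only [Complex.norm_ofNat]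
    linarith
  have e1 : (ψ / 2).re = ψ.re / 2 := by simp
  have e2 : (ψ / 2).im = ψ.im / 2 := by simp
  rw [cos_im]
  have h3 : 0 < Real.sin (ψ / 2).re := by
    apply Real.sin_pos_of_pos_of_lt_pi
    · rw [e1]; linarith
    · have := (abs_le.1 hx).2
      have := Real.pi_gt_three
      linarith
  have h4 : 0 < Real.sinh (ψ / 2).im := by
    rw [Real.sinh_pos_iff, e2]
    linarith
  nlinarith [mul_pos h3 h4]

theorem quot_pos {c c' : ℂ} (hc : |c.im| < c.re) (hc' : |c'.im| < c'.re) :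
    0 < (c' / c).re ∧ (0 < c.im → c'.im < 0 → (c' / c).im < 0) ∧
      (c.im < 0 → 0 < c'.im → 0 < (c' / c).im) := by
  have h0 : 0 < c.re := (abs_nonneg _).trans_lt hc
  have h0' : 0 < c'.re := (abs_nonneg _).trans_lt hc'
  have hn : 0 < Complex.normSq c := by
    rw [Complex.normSq_pos]
    intro h
    rw [h] at h0
    simp at h0
  rw [Complex.div_re, Complex.div_im, ← add_div, ← sub_div]
  refine ⟨div_pos ?_ hn, fun h1 h2 => div_neg_of_neg_of_pos ?_ hn, fun h1 h2 => div_pos ?_ hn⟩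
  · have h3 : |c'.im * c.im| < c'.re * c.re := by
      rw [abs_mul]
      exact mul_lt_mul'' hc' hc (abs_nonneg _) (abs_nonneg _)
    have := (abs_lt.1 h3).1
    linarith
  · nlinarith [mul_pos (neg_pos.2 h2) h0, mul_pos h0' h1]
  · nlinarith [mul_pos h2 h0, mul_pos h0' (neg_pos.2 h1)]

/-! ### the functions of a twist region -/

theorem uf_rec (b : Bool) {z : ℂ} (t : ℂ) (hz : z.im ≠ 0) (k : ℕ) :
    Uf b z t k * Uf b z t (k + 2) = Uf b z t (k + 1) ^ 2 - 1 := by
  unfold Uf
  cases b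
  · simp only [Bool.false_eq_true, if_false]
    rw [← map_mul, sin_rec (sin_ne (by simpa using hz)), map_sub, map_pow, map_one]
  · simp only [if_true]
    exact sin_rec (sin_ne (by simpa using hz)) k

theorem uf_end {b : Bool} {z t t' : ℂ} {a : ℕ}
    (h : a * (-((if b then (1 : ℝ) else -1 : ℝ) : ℂ) * z / 2) + t + t' = π) :
    Uf b z t a = if b then Complex.sin t' / Complex.sin (-z / 2)
      else conj (Complex.sin t' / Complex.sin (z / 2)) := by
  unfold Uf
  cases b
  · simp only [Bool.false_eq_true, if_false] at h ⊢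
    have e : (a : ℂ) * (z / 2) + t = π - t' := by
      rw [← h]
      push_cast
      ring
    rw [e, Complex.sin_pi_sub]
  · simp only [if_true] at h ⊢
    have e : (a : ℂ) * (-z / 2) + t = π - t' := by
      rw [← h]
      push_cast
      ring
    rw [e, Complex.sin_pi_sub]

theorem uf_pre {b : Bool} {z t t' : ℂ} {a : ℕ} (ha : 1 ≤ a)
    (h : a * (-((if b then (1 : ℝ) else -1 : ℝ) : ℂ) * z / 2) + t + t' = π) :
    Uf b z t (a - 1) = if b then Complex.sin (t' - z / 2) / Complex.sin (-z / 2)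
      else conj (Complex.sin (t' + z / 2) / Complex.sin (z / 2)) := by
  unfold Uf
  have e0 : ((a - 1 : ℕ) : ℂ) = a - 1 := by
    push_cast [Nat.cast_sub ha]
    ring
  cases b
  · simp only [Bool.false_eq_true, if_false] at h ⊢
    have e : ((a - 1 : ℕ) : ℂ) * (z / 2) + t = π - (t' + z / 2) := by
      rw [← h, e0]
      push_cast
      ring
    rw [e, Complex.sin_pi_sub]
  · simp only [if_true] at h ⊢
    have e : ((a - 1 : ℕ) : ℂ) * (-z / 2) + t = π - (t' - z / 2) := by
      rw [← h, e0]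
      push_cast
      ring
    rw [e, Complex.sin_pi_sub]

theorem uf_zero (b : Bool) (z t : ℂ) :
    Uf b z t 0 = if b then Complex.sin t / Complex.sin (-z / 2)
      else conj (Complex.sin t / Complex.sin (z / 2)) := by
  unfold Uf
  cases b <;> simp

theorem uf_one (b : Bool) (z t : ℂ) :
    Uf b z t 1 = if b then Complex.sin (t - z / 2) / Complex.sin (-z / 2)
      else conj (Complex.sin (t + z / 2) / Complex.sin (z / 2)) := by
  unfold Uf
  cases b
  · simp only [Bool.false_eq_true, if_false]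
    have e : ((1 : ℕ) : ℂ) * (z / 2) + t = t + z / 2 := by
      push_cast
      ring
    rw [e]
  · simp only [if_true]
    have e : ((1 : ℕ) : ℂ) * (-z / 2) + t = t - z / 2 := by
      push_cast
      ring
    rw [e]

theorem bl_cons (p : ℕ × ℂ) (l : List (ℕ × ℂ)) : bl (p :: l) = !bl l := by
  unfold bl
  rw [List.length_cons]
  by_cases h : l.length % 2 = 0
  · have h1 : ¬ ((l.length + 1) % 2 = 0) := by omega
    simp [h, h1]
  · have h1 : (l.length + 1) % 2 = 0 := by omega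
    simp [h, h1]

theorem hp_symm {ψ ψ' u : ℂ} (h : HP ψ ψ' u) : HP ψ' ψ u where
  ne := h.ne'
  ne' := h.ne
  sm := h.sm'
  sm' := h.sm
  un := h.un
  eq := by
    rw [h.eq, mul_comm (Complex.cos ψ), add_assoc, add_assoc, add_comm (Complex.cos ψ)]

theorem alg_hinge {c c' s s' A A' q : ℂ} (hc : c ≠ 0) (hc' : c' ≠ 0) (hs : s ≠ 0) (hs' : s' ≠ 0)
    (hA : A * A' * (c * c') = -(s * s' * (c ^ 2 + c' ^ 2))) (hq : q ^ 2 = -(c' / c) ^ 2) :
    (q ^ 2 - 1) ^ 2 = -(q ^ 2 * (A / s) ^ 2 * (A' / s') ^ 2) := by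
  have h1 : (A / s) * (A' / s') = -((c ^ 2 + c' ^ 2) / (c * c')) := by
    have h2 : A * A' = -(s * s' * (c ^ 2 + c' ^ 2)) / (c * c') := by
      rw [eq_div_iff (mul_ne_zero hc hc')]
      exact hA
    rw [div_mul_div_comm, h2]
    field_simp
  have h3 : q ^ 2 * (A / s) ^ 2 * (A' / s') ^ 2 = q ^ 2 * ((A / s) * (A' / s')) ^ 2 := by ring
  rw [h3, h1, hq]
  field_simp
  ring

theorem hinge (hH : S_HLOC) (b : Bool) {ψ ψ' u : ℂ} (h : HP ψ ψ' u) (hi : 0 < ψ.im)
    (hi' : 0 < ψ'.im) {Q P Pm Qp : ℂ}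
    (hQ : Q = if b then Complex.sin (tt ψ u) / Complex.sin (-ψ / 2)
      else conj (Complex.sin (tt ψ u) / Complex.sin (ψ / 2)))
    (hP : P = if (!b) then Complex.sin (tt ψ' u) / Complex.sin (-ψ' / 2)
      else conj (Complex.sin (tt ψ' u) / Complex.sin (ψ' / 2)))
    (hPm : Pm = if b then Complex.sin (tt ψ u - ψ / 2) / Complex.sin (-ψ / 2)
      else conj (Complex.sin (tt ψ u + ψ / 2) / Complex.sin (ψ / 2)))
    (hQp : Qp = if (!b) then Complex.sin (tt ψ' u - ψ' / 2) / Complex.sin (-ψ' / 2)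
      else conj (Complex.sin (tt ψ' u + ψ' / 2) / Complex.sin (ψ' / 2))) :
    P = (conj Q)⁻¹ ∧ (Q ^ 2 - 1) ^ 2 = -(Q ^ 2 * Pm ^ 2 * conj Qp ^ 2) := by
  obtain ⟨-, -, t1, t2, t3⟩ := hH ψ ψ' u h
  obtain ⟨-, -, t1', -, -⟩ := hH ψ' ψ u (hp_symm h)
  have hs : Complex.sin (ψ / 2) ≠ 0 := sin_ne (by simpa using hi.ne')
  have hs' : Complex.sin (ψ' / 2) ≠ 0 := sin_ne (by simpa using hi'.ne')
  have hre : ∀ c : ℂ, |c.im| < c.re → c ≠ 0 := by
    intro c hc h0
    rw [h0] at hc
    simp at hc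
  have hc : Complex.cos (ψ / 2) ≠ 0 := hre _ (cos_half h.sm)
  have hc' : Complex.cos (ψ' / 2) ≠ 0 := hre _ (cos_half h.sm')
  have en : Complex.sin (-ψ / 2) = -Complex.sin (ψ / 2) := by
    rw [neg_div, Complex.sin_neg]
  have en' : Complex.sin (-ψ' / 2) = -Complex.sin (ψ' / 2) := by
    rw [neg_div, Complex.sin_neg]
  rw [en] at hQ hPm
  rw [en'] at hP hQp
  rw [t1] at hQ
  rw [t1'] at hP
  generalize Complex.sin (ψ / 2) = s at *
  generalize Complex.sin (ψ' / 2) = s' at *
  generalize Complex.cos (ψ / 2) = c at *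
  generalize Complex.cos (ψ' / 2) = c' at *
  cases b
  · simp only [Bool.not_false, if_true, Bool.false_eq_true, if_false] at hQ hP hPm hQp
    have e1 : -Complex.I * s * c' / c / s = -Complex.I * (c' / c) := by
      field_simp
    rw [e1] at hQ
    refine ⟨?_, ?_⟩
    · rw [hP, hQ, Complex.conj_conj]
      field_simp
      rw [Complex.I_sq]
    · have h5 := alg_hinge (q := -Complex.I * (c' / c)) hc hc' hs hs' t2 (by
        rw [mul_pow, neg_sq, Complex.I_sq]
        ring)
      have h6 := congrArg conj h5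
      rw [hQ, hPm, hQp, div_neg, map_neg, neg_sq]
      simp only [map_pow, map_sub, map_one, map_neg, map_mul] at h6 ⊢
      exact h6
  · simp only [Bool.not_true, if_true, Bool.false_eq_true, if_false] at hQ hP hPm hQp
    have e1 : -Complex.I * s * c' / c / -s = Complex.I * (c' / c) := by
      field_simp
    have e2 : -Complex.I * s' * c / c' / s' = (Complex.I * (c' / c))⁻¹ := by
      field_simp
      rw [Complex.I_sq]
      ring
    rw [e1] at hQ
    rw [e2] at hP
    refine ⟨?_, ?_⟩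
    · rw [hP, hQ, map_inv₀]
    · have h5 := alg_hinge (q := Complex.I * (c' / c)) hc hc' hs hs' t3 (by
        rw [mul_pow, Complex.I_sq]
        ring)
      rw [hQ, hPm, hQp, div_neg, neg_sq, Complex.conj_conj]
      exact h5

theorem hinge_pos (hH : S_HLOC) (b : Bool) {ψ ψ' u : ℂ} (h : HP ψ ψ' u) (hi : 0 < ψ.im)
    (hi' : 0 < ψ'.im) (hr : (if b then (1 : ℝ) else -1) * ψ.re < 0)
    (hr' : (if (!b) then (1 : ℝ) else -1) * ψ'.re < 0) {Q : ℂ}
    (hQ : Q = if b then Complex.sin (tt ψ u) / Complex.sin (-ψ / 2)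
      else conj (Complex.sin (tt ψ u) / Complex.sin (ψ / 2))) : 0 < Q.re ∧ 0 < Q.im := by
  obtain ⟨-, -, t1, -, -⟩ := hH ψ ψ' u h
  have hs : Complex.sin (ψ / 2) ≠ 0 := sin_ne (by simpa using hi.ne')
  have hre : ∀ c : ℂ, |c.im| < c.re → c ≠ 0 := by
    intro c hc h0
    rw [h0] at hc
    simp at hc
  have hc : Complex.cos (ψ / 2) ≠ 0 := hre _ (cos_half h.sm)
  have en : Complex.sin (-ψ / 2) = -Complex.sin (ψ / 2) := by
    rw [neg_div, Complex.sin_neg]
  rw [en, t1] at hQ
  obtain ⟨q1, q2, q3⟩ := quot_pos (cos_half h.sm) (cos_half h.sm')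
  cases b
  · simp only [Bool.false_eq_true, if_false, Bool.not_false, if_true] at hr hr' hQ
    have c1 := cos_im_neg h.sm (by linarith) hi
    have c2 := cos_im_pos h.sm' (by linarith) hi'
    have q4 := q3 c1 c2
    have e1 : -Complex.I * Complex.sin (ψ / 2) * Complex.cos (ψ' / 2) / Complex.cos (ψ / 2) /
        Complex.sin (ψ / 2) = -Complex.I * (Complex.cos (ψ' / 2) / Complex.cos (ψ / 2)) := by
      field_simp
    rw [hQ, e1]
    generalize Complex.cos (ψ' / 2) / Complex.cos (ψ / 2) = q at *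
    simp
    exact ⟨q4, q1⟩
  · simp only [Bool.not_true, if_true, Bool.false_eq_true, if_false] at hr hr' hQ
    have c1 := cos_im_pos h.sm (by linarith) hi
    have c2 := cos_im_neg h.sm' (by linarith) hi'
    have q4 := q2 c1 c2
    have e1 : -Complex.I * Complex.sin (ψ / 2) * Complex.cos (ψ' / 2) / Complex.cos (ψ / 2) /
        -Complex.sin (ψ / 2) = Complex.I * (Complex.cos (ψ' / 2) / Complex.cos (ψ / 2)) := by
      field_simp
    rw [hQ, e1]
    generalize Complex.cos (ψ' / 2) / Complex.cos (ψ / 2) = q at *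
    simp
    exact ⟨q4, q1⟩

theorem uf_pos (hQ : S_QUAD) (b : Bool) {z t t' : ℂ} {a : ℕ} (ha : 10 ≤ a) (hz : 0 < z.im)
    (heq : a * (-((if b then (1 : ℝ) else -1 : ℝ) : ℂ) * z / 2) + t + t' = π)
    (ht : t = 0 ∨ ‖t + Complex.I * z / 2‖ ≤ ‖z‖ / 20)
    (ht' : t' = 0 ∨ ‖t' + Complex.I * z / 2‖ ≤ ‖z‖ / 20) (hne : t ≠ 0 ∨ t' ≠ 0) {k : ℕ}
    (hk1 : 1 ≤ k) (hk2 : k < a) (h1 : t = 0 → k ≠ 1) (h2 : t' = 0 → k + 1 ≠ a) :
    0 < (Uf b z t k).re ∧ 0 < (Uf b z t k).im := by
  have hz0 : z ≠ 0 := by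
    intro h
    rw [h] at hz
    simp at hz
  unfold Uf
  cases b
  · simp only [Bool.false_eq_true, if_false] at heq ⊢
    have e : conj (Complex.sin ((k : ℂ) * (z / 2) + t) / Complex.sin (z / 2)) =
        Complex.sin ((k : ℂ) * conj (z / 2) + conj t) / Complex.sin (conj (z / 2)) := by
      rw [map_div₀, ← Complex.sin_conj, ← Complex.sin_conj, map_add, map_mul, Complex.conj_natCast]
    rw [e]
    have hn : ‖conj (z / 2)‖ = ‖z‖ / 2 := by
      rw [Complex.norm_conj, norm_div]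
      simp
    have aux : ∀ s : ℂ, (s = 0 ∨ ‖s + Complex.I * z / 2‖ ≤ ‖z‖ / 20) →
        (conj s = 0 ∨ ‖conj s - Complex.I * conj (z / 2)‖ ≤ ‖conj (z / 2)‖ / 10) := by
      intro s hs
      rcases hs with hs | hs
      · left
        rw [hs, map_zero]
      · right
        have e1 : conj s - Complex.I * conj (z / 2) = conj (s + Complex.I * z / 2) := by
          rw [map_add, map_div₀, map_div₀, map_mul, Complex.conj_I]
          ring
        rw [e1, Complex.norm_conj, hn]
        linarith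
    have h0 : ∀ s : ℂ, conj s = 0 → s = 0 := fun s hs => (map_eq_zero _).1 hs
    refine quad_use hQ ha ?_ ?_ (aux t ht) (aux t' ht') ?_ hk1 hk2 (fun h => h1 (h0 _ h))
      (fun h => h2 (h0 _ h))
    · intro h
      exact hz0 (by simpa using h0 _ h)
    · have h3 := congrArg conj heq
      rw [map_add, map_add, map_mul, Complex.conj_natCast, Complex.conj_ofReal] at h3
      rw [← h3]
      congr 3
      rw [map_div₀, map_div₀, map_mul]
      simp
    · rcases hne with h | h
      · exact Or.inl fun h' => h (h0 _ h')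
      · exact Or.inr fun h' => h (h0 _ h')
  · simp only [if_true] at heq ⊢
    have hn : ‖(-z / 2 : ℂ)‖ = ‖z‖ / 2 := by
      rw [norm_div, norm_neg]
      simp
    have aux : ∀ s : ℂ, (s = 0 ∨ ‖s + Complex.I * z / 2‖ ≤ ‖z‖ / 20) →
        (s = 0 ∨ ‖s - Complex.I * (-z / 2)‖ ≤ ‖(-z / 2 : ℂ)‖ / 10) := by
      intro s hs
      rcases hs with hs | hs
      · exact Or.inl hs
      · right
        have e1 : s - Complex.I * (-z / 2) = s + Complex.I * z / 2 := by ring
        rw [e1, hn]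
        linarith
    refine quad_use hQ ha ?_ ?_ (aux t ht) (aux t' ht') hne hk1 hk2 h1 h2
    · intro h
      apply hz0
      have : z = -2 * (-z / 2) := by ring
      rw [this, h, mul_zero]
    · rw [← heq]
      push_cast
      ring

theorem ne_of_close {z t : ℂ} (hz : 0 < z.im) (h : ‖t + Complex.I * z / 2‖ ≤ ‖z‖ / 20) :
    t ≠ 0 := by
  intro h0
  have hz0 : z ≠ 0 := by
    intro h
    rw [h] at hz
    simp at hz
  have hzn : 0 < ‖z‖ := norm_pos_iff.2 hz0
  rw [h0, zero_add, norm_div, norm_mul, Complex.norm_I, one_mul] at h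
  simp only [Complex.norm_ofNat] at h
  linarith

theorem chn_len {dl : ℂ → ℂ → ℂ} {L : List (ℕ × ℂ)} {t : ℂ} (hL : Chn dl L t) :
    10 * L.length ≤ sm L := by
  induction L generalizing t with
  | nil => exact Nat.zero_le _
  | cons x L ih =>
    have h1 := ih hL.2.2.2.2.2
    have h2 : 10 ≤ x.1 := hL.1
    have h3 : sm (x :: L) = x.1 + sm L := rfl
    rw [List.length_cons, h3]
    omega

/-- the data of a twist region -/
structure Info (dl : ℂ → ℂ → ℂ) (L : List (ℕ × ℂ)) (p : ℕ × ℂ) (l : List (ℕ × ℂ)) (t' : ℂ) :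
    Prop where
  ch : Chn dl (p :: l) t'
  left : (l = [] ∧ tl dl l p.2 = 0) ∨
    (l ≠ [] ∧ ‖tl dl l p.2 + Complex.I * p.2 / 2‖ ≤ ‖p.2‖ / 20)
  right : (p :: l = L ∧ t' = 0) ∨ ((∃ q, (q :: p :: l) <:+ L ∧ 0 < q.2.im ∧
    sgn (p :: l) * q.2.re < 0 ∧ HP p.2 q.2 (2 * π * dl p.2 q.2) ∧
    t' = tt p.2 (2 * π * dl p.2 q.2)) ∧ ‖t' + Complex.I * p.2 / 2‖ ≤ ‖p.2‖ / 20)

theorem info (hH : S_HLOC) {dl : ℂ → ℂ → ℂ} {L : List (ℕ × ℂ)} (hL : Chn dl L 0)
    {p : ℕ × ℂ} {l : List (ℕ × ℂ)} (h : (p :: l) <:+ L) : ∃ t', Info dl L p l t' := by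
  have hleft : ∀ t', Chn dl (p :: l) t' → (l = [] ∧ tl dl l p.2 = 0) ∨
      (l ≠ [] ∧ ‖tl dl l p.2 + Complex.I * p.2 / 2‖ ≤ ‖p.2‖ / 20) := by
    intro t' ht
    cases l with
    | nil => exact Or.inl ⟨rfl, rfl⟩
    | cons p' l' =>
      right
      refine ⟨List.cons_ne_nil _ _, ?_⟩
      have h1 : HP p'.2 p.2 (2 * π * dl p'.2 p.2) := ht.2.2.2.2.1 p' rfl
      exact (hH _ _ _ (hp_symm h1)).2.1
  rcases chn_suffix hL h with h1 | ⟨q, h1, t2, h2⟩
  · refine ⟨0, ?_, hleft 0 ?_, Or.inl ⟨h1, rfl⟩⟩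
    · rw [h1]; exact hL
    · rw [h1]; exact hL
  · have h3 : Chn dl (p :: l) (tr dl (p :: l) q.2) := h2.2.2.2.2.2
    have h4 : HP p.2 q.2 (2 * π * dl p.2 q.2) := h2.2.2.2.2.1 p rfl
    exact ⟨_, h3, hleft _ h3, Or.inr ⟨⟨q, h1, h2.2.1, h2.2.2.1, h4, rfl⟩, (hH _ _ _ h4).2.1⟩⟩

theorem main (hH : S_HLOC) (hQ : S_QUAD) : S_CHN := by
  intro dl L _ hlen hC
  have hsm := chn_len hC
  have hn20 : 20 ≤ sm L := by omega
  -- the first twist region
  obtain ⟨p0, l0, hs0, hi0, hj0⟩ := exists_reg L 1 le_rfl (by omega)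
  obtain ⟨t0, I0⟩ := info hH hC hs0
  have hl0 : l0 = [] := by
    have h1 := chn_len I0.ch.2.2.2.2.2
    have h2 : l0.length = 0 := by omega
    exact List.length_eq_zero_iff.1 h2
  have hfirst : Uf (bl l0) p0.2 (tl dl l0 p0.2) 1 = 1 := by
    rw [hl0]
    have e1 : bl [] = true := rfl
    have e2 : tl dl [] p0.2 = 0 := rfl
    rw [e1, e2, uf_one]
    simp only [if_true]
    have e3 : (0 : ℂ) - p0.2 / 2 = -p0.2 / 2 := by ring
    rw [e3]
    refine div_self (sin_ne ?_)
    have := I0.ch.2.1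
    simp
    exact this.ne'
  have hsl0 : sm l0 = 0 := by rw [hl0]; rfl
  have h10 := I0.ch.1
  refine ⟨by omega, ?_, ?_, ?_, ?_, ?_, ?_⟩
  · rw [qloc dl hs0 (j := 0) (by omega) (by omega), hsl0]
    exact hfirst
  · rw [ploc dl hs0 (j := 0) (by omega) (by omega), hsl0]
    exact hfirst
  · -- the last layer
    obtain ⟨p, l, hpl⟩ : ∃ p l, L = p :: l := by
      cases L with
      | nil => simp at hlen
      | cons p l => exact ⟨p, l, rfl⟩
    have hs : (p :: l) <:+ L := by rw [hpl]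
    have hL2 : Chn dl (p :: l) 0 := by rw [← hpl]; exact hC
    have hp10 := hL2.1
    have e1 : sm L = p.1 + sm l := by rw [hpl]; rfl
    rw [qloc dl hs (by omega) (by omega)]
    have e2 : sm L - 2 + 1 - sm l = p.1 - 1 := by omega
    rw [e2, uf_pre (by omega) hL2.2.2.2.1]
    have hz := hL2.2.1
    by_cases hb : bl l = true
    · rw [if_pos hb]
      have e3 : (0 : ℂ) - p.2 / 2 = -p.2 / 2 := by ring
      rw [e3]
      refine div_self (sin_ne ?_)
      simp
      exact hz.ne'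
    · rw [if_neg hb, zero_add, div_self (sin_ne (by simpa using hz.ne')), map_one]
  · -- positivity
    intro j hj1 hj2
    obtain ⟨p, l, hs, h1, h2⟩ := exists_reg L (j + 1) (by omega) (by omega)
    obtain ⟨t', I⟩ := info hH hC hs
    rw [qloc dl hs h1 h2]
    have hz := I.ch.2.1
    have heq := I.ch.2.2.2.1
    rcases Nat.lt_or_ge (j + 1) (p.1 + sm l) with h3 | h3
    · refine uf_pos hQ (bl l) I.ch.1 hz heq ?_ ?_ ?_ (by omega) (by omega) ?_ ?_
      · rcases I.left with h | h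
        · exact Or.inl h.2
        · exact Or.inr h.2
      · rcases I.right with h | h
        · exact Or.inl h.2
        · exact Or.inr h.2
      · rcases I.left with h | h
        · rcases I.right with h' | h'
          · exfalso
            have := h'.1
            rw [← this, h.1] at hlen
            simp at hlen
          · exact Or.inr (ne_of_close hz h'.2)
        · exact Or.inl (ne_of_close hz h.2)
      · intro h
        rcases I.left with h' | h'
        · have : sm l = 0 := by rw [h'.1]; rfl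
          omega
        · exact absurd h (ne_of_close hz h'.2)
      · intro h
        rcases I.right with h' | h'
        · have : sm L = p.1 + sm l := by rw [← h'.1]; rfl
          omega
        · exact absurd h (ne_of_close hz h'.2)
    · have h4 : j + 1 - sm l = p.1 := by omega
      rw [h4, uf_end heq]
      rcases I.right with h | ⟨⟨q, g1, g2, g3, g4, g5⟩, -⟩
      · exfalso
        have : sm L = p.1 + sm l := by rw [← h.1]; rfl
        omega
      · rw [g5]
        refine hinge_pos hH (bl l) g4 hz g2 I.ch.2.2.1 ?_ rfl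
        rw [← bl_cons p l]
        exact g3
  · -- the equations inside the twist regions
    intro j hj1 hj2 hH'
    obtain ⟨p, l, hs, h1, h2⟩ := exists_reg L (j + 1) (by omega) (by omega)
    obtain ⟨t', I⟩ := info hH hC hs
    have h3 : j + 1 < p.1 + sm l := by
      rcases Nat.lt_or_ge (j + 1) (p.1 + sm l) with h3 | h3
      · exact h3
      · exfalso
        rcases I.right with h | ⟨⟨q, g1, -⟩, -⟩
        · have : sm L = p.1 + sm l := by rw [← h.1]; rfl
          omega
        · exact hH' ((isH_iff L j).2 ⟨q, p :: l, g1, List.cons_ne_nil _ _, by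
            show j + 1 = p.1 + sm l
            omega⟩)
    have e1 := qloc dl hs (j := j) (by omega) (by omega)
    have e2 := ploc dl hs (j := j) (by omega) (by omega)
    have e3 := ploc dl hs (j := j - 1) (by omega) (by omega)
    have e4 := qloc dl hs (j := j + 1) (by omega) (by omega)
    refine ⟨by rw [e1, e2], ?_⟩
    rw [e3, e4, e1]
    have e5 : j - 1 + 1 - sm l = j - sm l := by omega
    have e6 : j + 1 + 1 - sm l = j - sm l + 2 := by omega
    have e7 : j + 1 - sm l = j - sm l + 1 := by omega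
    rw [e5, e6, e7]
    exact uf_rec (bl l) _ I.ch.2.1.ne' _
  · -- the equations at the hinges
    intro j hj1 hj2 hH'
    obtain ⟨q, l1, g1, g2, g3⟩ := (isH_iff L j).1 hH'
    obtain ⟨p, l, rfl⟩ : ∃ p l, l1 = p :: l := by
      cases l1 with
      | nil => exact absurd rfl g2
      | cons p l => exact ⟨p, l, rfl⟩
    have hs : (p :: l) <:+ L := (List.suffix_cons _ _).trans g1
    obtain ⟨t', I⟩ := info hH hC hs
    obtain ⟨t2, J⟩ := info hH hC g1
    have hsp : sm (p :: l) = p.1 + sm l := rfl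
    have hz := I.ch.2.1
    have heq := I.ch.2.2.2.1
    have hp10 := I.ch.1
    have hq10 := J.ch.1
    have hHP : HP p.2 q.2 (2 * π * dl p.2 q.2) := J.ch.2.2.2.2.1 p rfl
    have ht' : t' = tt p.2 (2 * π * dl p.2 q.2) := by
      rcases I.right with h | ⟨⟨q', k1, k2, k3, k4, k5⟩, -⟩
      · exfalso
        have h5 := sm_le g1
        have h6 : sm (q :: p :: l) = q.1 + sm (p :: l) := rfl
        have h7 : sm (p :: l) = sm L := by rw [h.1]
        omega
      · have h7 : q' :: p :: l = q :: p :: l := by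
          have h8 := List.suffix_of_suffix_length_le k1 g1 (by simp)
          exact h8.eq_of_length (by simp)
        rw [List.cons.injEq] at h7
        rw [k5, h7.1]
    rw [ht'] at heq
    have e1 := qloc dl hs (j := j) (by omega) (by omega)
    have e2 := ploc dl g1 (j := j) (by omega) (by omega)
    have e3 := ploc dl hs (j := j - 1) (by omega) (by omega)
    have e4 := qloc dl g1 (j := j + 1) (by omega) (by omega)
    have n1 : j + 1 - sm l = p.1 := by omega
    have n2 : j + 1 - sm (p :: l) = 0 := by omega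
    have n3 : j - 1 + 1 - sm l = p.1 - 1 := by omega
    have n4 : j + 1 + 1 - sm (p :: l) = 1 := by omega
    rw [n1, uf_end heq] at e1
    rw [n2, uf_zero, bl_cons] at e2
    rw [n3, uf_pre (by omega) heq] at e3
    rw [n4, uf_one, bl_cons] at e4
    exact hinge hH (bl l) hHP hz J.ch.2.1 e1 e2 e3 e4

end Pool.Agent.W253.HT
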